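import Pool.Agent.Q79.PercH

/-!
# Large-diameter clusters do not force a giant component (MP_6e7106_pr)

There are a sequence `G_n` of connected finite vertex-transitive `4`-regular graphs (thin tori
`C_m × C_k`) with `|V_n| → ∞` and a single `p ∈ (0, 1)` such that every vertex of every `G_n` lies
with probability larger than `δ > 0` in a component of diameter at least `diam(G_n) / 2`, while for
every `C > 0` the probability that some component has at least `C |V_n|` vertices stays bounded
away from `1`.

`Q79.PercDef.percProb G p A` is the probability that bond percolation with parameter `p` on the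
finite graph `G` has the property `A`.
-/

namespace Pool.Agent.Results.MP_6e7106_pr.ThinTori

open Filter Q79.PercDef Q79.Perc
open scoped Classical

/-- In the configuration `H` (a random subgraph of `G`), the component of `v` has diameter at least
`r`, both in the graph metric of `G` and in the intrinsic metric of the component: it contains two
vertices `x, y` with `G`-distance and `H`-distance at least `r`. -/
def DiamGE {V : Type} (G H : SimpleGraph V) (v : V) (r : ℝ) : Prop :=
  ∃ x ∈ (H.connectedComponentMk v).supp, ∃ y ∈ (H.connectedComponentMk v).supp,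
    r ≤ G.dist x y ∧ r ≤ H.dist x y

/-- **Negative answer to Q1.** -/
theorem result : ∃ (V : ℕ → Type) (_ : ∀ n, Fintype (V n)) (G : ∀ n, SimpleGraph (V n)),
    -- a sequence of connected vertex-transitive `4`-regular finite graphs, with `|V_n| → ∞`
    (∀ n, (G n).Connected) ∧ (∀ n, ∀ u v : V n, ∃ φ : G n ≃g G n, φ u = v) ∧
    (∀ n, ∀ v : V n, ((G n).neighborSet v).ncard = 4) ∧
    Tendsto (fun n => Fintype.card (V n)) atTop atTop ∧
    ∃ δ : ℝ, 0 < δ ∧ ∃ p : ℝ, 0 < p ∧ p < 1 ∧
      -- every vertex lies with probability `> δ` in a component of diameter `≥ diam(G_n) / 2`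
      (∀ n, ∀ v : V n,
        δ < percProb (G n) p (fun H => DiamGE (G n) H v (((G n).diam : ℝ) / 2))) ∧
      -- for every `C`, components of size `≥ C |V_n|` have probability bounded away from `1`
      (∀ C : ℝ, 0 < C → ∃ ε : ℝ, 0 < ε ∧ ∀ᶠ n in atTop,
        percProb (G n) p (fun H => ∃ c : H.ConnectedComponent,
          C * Fintype.card (V n) ≤ c.supp.ncard) ≤ 1 - ε) := by
  have hmm : ∀ n : ℕ, 256 < mm (n + 4) := fun n => by
    have h1 := mm_gt (n + 4) (by omega)
    have h2 : 4 ^ 4 ≤ 4 ^ (n + 4) := Nat.pow_le_pow_right (by norm_num) (by omega)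
    omega
  have inst : ∀ n : ℕ, NeZero (mm (n + 4)) := fun n => ⟨by have := hmm n; omega⟩
  refine ⟨fun n => ZMod (mm (n + 4)) × ZMod (n + 4), fun n => inferInstance,
    fun n => TG (mm (n + 4)) (n + 4), ?_, ?_, ?_, ?_, 1 / 4, by norm_num, 99 / 100,
    by norm_num, by norm_num, ?_, ?_⟩
  · intro n
    exact TG_connected (by have := hmm n; omega) (by omega)
  · intro n u v
    exact TG_transitive (by have := hmm n; omega) (by omega) u v
  · intro n v
    exact TG_regular (by have := hmm n; omega) (by omega) v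
  · refine tendsto_atTop_mono (fun n => ?_) tendsto_id
    rw [Fintype.card_prod, ZMod.card, ZMod.card]
    have h1 : 1 ≤ mm (n + 4) := by have := hmm n; omega
    calc id n ≤ n + 4 := by simp
      _ = 1 * (n + 4) := by ring
      _ ≤ mm (n + 4) * (n + 4) := Nat.mul_le_mul_right _ h1
  · intro n v
    have hm : 3 ≤ mm (n + 4) := by have := hmm n; omega
    have hk : 3 ≤ n + 4 := by omega
    rw [percProb_TG hm hk]
    refine (long_arm (n + 4) (by omega) v).trans_le (Pr_mono p0 p1 fun S _ hS => ?_)
    obtain ⟨y, hy, hc⟩ := hS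
    set H := SimpleGraph.fromEdgeSet
      ((S.image io : Finset (Sym2 (ZMod (mm (n + 4)) × ZMod (n + 4)))) :
        Set (Sym2 (ZMod (mm (n + 4)) × ZMod (n + 4)))) with hH
    have hreach : H.Reachable v y := (reach_iff hm hk S v y).2 hc
    have hle : H ≤ TG (mm (n + 4)) (n + 4) := by
      intro a b hab
      rw [hH, SimpleGraph.fromEdgeSet_adj, Finset.mem_coe, Finset.mem_image] at hab
      obtain ⟨⟨e, _, he⟩, hne⟩ := hab
      rw [TG_adj hm hk]
      exact ⟨e, Set.mem_univ e, io_eq_iff.1 he⟩
    have hd := dist_ge hm hk (le_refl (mm (n + 4) / 2)) hy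
    have hdH : (TG (mm (n + 4)) (n + 4)).dist v y ≤ H.dist v y := by
      obtain ⟨w, hw⟩ := hreach.exists_walk_length_eq_dist
      rw [← hw, ← SimpleGraph.Walk.length_mapLe hle w]
      exact SimpleGraph.dist_le _
    have hdiam : (((TG (mm (n + 4)) (n + 4)).diam : ℕ) : ℝ) / 2 ≤
        (TG (mm (n + 4)) (n + 4)).dist v y := by
      have h1 := TG_diam (m := mm (n + 4)) (k := n + 4) hm hk
      have h2 : n + 4 ≤ mm (n + 4) := by
        have h3 := mm_gt (n + 4) (by omega)
        have h4 : n + 4 < 4 ^ (n + 4) := Nat.lt_pow_self (by norm_num)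
        omega
      have h5 : (TG (mm (n + 4)) (n + 4)).diam ≤
          2 * (TG (mm (n + 4)) (n + 4)).dist v y := by omega
      have h6 : (((TG (mm (n + 4)) (n + 4)).diam : ℕ) : ℝ) ≤
          2 * (((TG (mm (n + 4)) (n + 4)).dist v y : ℕ) : ℝ) := by exact_mod_cast h5
      linarith
    refine ⟨v, rfl, y, ?_, hdiam, hdiam.trans (by exact_mod_cast hdH)⟩
    rw [SimpleGraph.ConnectedComponent.mem_supp_iff, SimpleGraph.ConnectedComponent.eq]
    exact hreach.symm
  · intro C hC
    obtain ⟨ε, hε, k₀, hk₀⟩ := no_giant C hC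
    refine ⟨ε, hε, Filter.eventually_atTop.2 ⟨k₀, fun n hn => ?_⟩⟩
    have hm : 3 ≤ mm (n + 4) := by have := hmm n; omega
    have hk : 3 ≤ n + 4 := by omega
    rw [percProb_TG hm hk]
    refine le_trans (Pr_mono p0 p1 fun S _ hS => ?_) (hk₀ (n + 4) (by omega))
    obtain ⟨c, hc⟩ := hS
    induction c using SimpleGraph.ConnectedComponent.ind with
    | _ v =>
    refine ⟨v, ?_⟩
    have hcard : ((Fintype.card (ZMod (mm (n + 4)) × ZMod (n + 4)) : ℕ) : ℝ) =
        (mm (n + 4) : ℝ) * ((n + 4 : ℕ) : ℝ) := by
      rw [Fintype.card_prod, ZMod.card, ZMod.card]; push_cast; ring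
    rw [hcard] at hc
    refine hc.trans (le_of_eq ?_)
    rw [← Set.ncard_coe_finset]
    congr 2
    ext w
    rw [SimpleGraph.ConnectedComponent.mem_supp_iff, SimpleGraph.ConnectedComponent.eq,
      reach_iff hm hk]
    simp only [Finset.coe_filter, Finset.mem_univ, true_and, Set.mem_ofPred_eq]
    exact ⟨fun h => h.symm, fun h => h.symm⟩

end Pool.Agent.Results.MP_6e7106_pr.ThinTori
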